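import Mathlib
import Pool.Agent.U914.WP.KN

/-!
# The number of sums of `l` values of almost all polynomials of degree `k`

Let `k ≥ 2`, let `a > 0` be fixed (for instance `a = 1`), and consider the integer sequence
`⌊f(1)⌋, ⌊f(2)⌋, …` where `f(x) = a x ^ k + θ_{k-1} x ^ (k-1) + … + θ_1 x`. We prove that for almost all
`θ ∈ ℝ ^ (k-1)` the sums of `l` values, even of values at elements of arbitrary sets `B₁, …, B_l ⊆ [1, P]`, are almost
as numerous as possible. In particular the number of positive integers up to `X` that are sums of `l` values is at least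
`X ^ (l/k - ε)` for `l < k` and at least `X ^ (1 - ε)` for `l = k`.
-/

set_option autoImplicit false

namespace Pool.Agent.Results.MP_4e3e45_nt.SumsetsOfValues

open MeasureTheory Filter

/-- **Sumsets of values of almost all polynomials.** Let `k ≥ 2` and `a > 0`. For almost all `θ ∈ ℝ ^ (k-1)` (Lebesgue
measure) the polynomial `f(x) = a x ^ k + θ_{k-1} x ^ (k-1) + … + θ_1 x` has these two properties for all `l ≥ 1` and
`ε > 0`.

* For all large `P` and all finite sets `B₁, …, B_l ⊆ [1, P]` the number of integers of the form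
  `⌊f(b₁)⌋ + … + ⌊f(b_l)⌋` with `b_i ∈ B_i` is at least `(|B₁| ⋯ |B_l|)² / P ^ (max(l, 2l - k) + ε)`.
* For all large `X` at least `X ^ (min(l/k, 1) - ε)` of the integers `1 ≤ n ≤ X` are of the form
  `⌊f(x₁)⌋ + … + ⌊f(x_l)⌋` with positive integers `x_i`. -/
theorem result (k : ℕ) (hk : 2 ≤ k) (a : ℝ) (ha : 0 < a) :
    ∀ᵐ θ : Fin (k - 1) → ℝ, ∀ l : ℕ, 1 ≤ l → ∀ ε : ℝ, 0 < ε →
      (∀ᶠ P : ℕ in atTop, ∀ B : Fin l → Finset ℕ, (∀ i, ∀ b ∈ B i, 0 < b ∧ b ≤ P) →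
        (∏ i, ((B i).card : ℝ)) ^ 2 ≤
          (({z : ℤ | ∃ b : Fin l → ℕ, (∀ i, b i ∈ B i) ∧
            ∑ i, ⌊a * (b i : ℝ) ^ k + ∑ j : Fin (k - 1), θ j * (b i : ℝ) ^ ((j : ℕ) + 1)⌋ = z}.ncard : ℕ) : ℝ) *
          (P : ℝ) ^ (max (l : ℝ) (2 * l - k) + ε)) ∧
      (∀ᶠ X : ℕ in atTop, (X : ℝ) ^ (min ((l : ℝ) / k) 1 - ε) ≤
        (({n : ℕ | 1 ≤ n ∧ n ≤ X ∧ ∃ x : Fin l → ℕ, (∀ i, 0 < x i) ∧
          ∑ i, ⌊a * (x i : ℝ) ^ k + ∑ j : Fin (k - 1), θ j * (x i : ℝ) ^ ((j : ℕ) + 1)⌋ = (n : ℤ)}.ncard : ℕ) : ℝ)) := by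
  obtain ⟨d, rfl⟩ : ∃ d, k = d + 1 := ⟨k - 1, by omega⟩
  filter_upwards [Pool.Agent.U914.WP.KK_all d a ha] with θ h l hl ε hε
  refine ⟨?_, Pool.Agent.U914.WP.sums_count d a ha θ h l hl ε hε⟩
  filter_upwards [Pool.Agent.U914.WP.sumset d a θ h l hl ε hε] with P hP B hB
  have h1 := hP B fun i b hb => Finset.mem_Ioc.2 (hB i b hb)
  refine h1.trans (le_of_eq ?_)
  congr 2
  rw [← Set.ncard_coe_finset]
  congr 1
  ext z
  simp only [Finset.coe_image, Set.mem_image, Finset.mem_coe, Fintype.mem_piFinset, Set.mem_ofPred_eq]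
  rfl

end Pool.Agent.Results.MP_4e3e45_nt.SumsetsOfValues
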